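import Mathlib

/-!
# MP_31e124_gt, package BP: plumbings of bands, the torsion polynomial by Fox calculus
-/

set_option autoImplicit false

namespace Pool.Agent.Lib.MP_31e124_gt.BP

open LaurentPolynomial
open scoped MatrixGroups

/-- The free group with the generators `t` (`none`, a meridian) and `c_v` (`some v`). -/
abbrev Fr (V : Type) : Type := FreeGroup (Option V)

/-- The meridian. -/
def tt {V : Type} : Fr V := FreeGroup.of none

/-- The loop through the band `v`. -/
def cc {V : Type} (v : V) : Fr V := FreeGroup.of (some v)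

/-- A plumbing of bands: a finite set `V` of bands, `blk v` tells on which side of the plane the band `v`
is, `B v` is its number of full twists (up to sign), `P v` and `Q v` are words in the loops through the
bands on the other side and through bands of smaller rank. -/
structure Plumbing (V : Type) where
  blk : V → Bool
  rk : V → ℕ
  B : V → ℤ
  P : V → Fr V
  Q : V → Fr V
  hB : ∀ v, B v ≠ 0
  hP : ∀ v, P v ∈ Subgroup.closure {x | ∃ w, (blk w ≠ blk v ∨ rk w < rk v) ∧ x = cc w}
  hQ : ∀ v, Q v ∈ Subgroup.closure {x | ∃ w, (blk w ≠ blk v ∨ rk w < rk v) ∧ x = cc w}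

variable {V : Type} (A : Plumbing V)

namespace Plumbing

/-- The push-off of the core of the band `v` to the positive side of the surface. -/
def L (v : V) : Fr V := if A.blk v then A.P v * cc v ^ A.B v * A.Q v else cc v ^ A.B v

/-- The push-off of the core of the band `v` to the negative side of the surface. -/
def R (v : V) : Fr V := if A.blk v then cc v ^ A.B v else A.P v * cc v ^ A.B v * A.Q v

/-- The relator of `v`: the relation is `L v = t (R v) t⁻¹`. -/
def rel (v : V) : Fr V := A.L v * (tt * (A.R v)⁻¹ * tt⁻¹)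

/-- The group of the knot. -/
abbrev G : Type := PresentedGroup (Set.range A.rel)

/-- The class of a word. -/
abbrev cl (g : Fr V) : A.G := PresentedGroup.mk (Set.range A.rel) g

end Plumbing

/-- The exponent sum of `t`. -/
def deg {V : Type} : Fr V →* Multiplicative ℤ :=
  FreeGroup.lift fun x => x.elim (Multiplicative.ofAdd 1) fun _ => 1

/-- The representation `g ↦ T ^ deg g • α g` over the Laurent polynomials. -/
noncomputable def Phi (α : A.G →* SL(2, ℂ)) (g : Fr V) : Matrix (Fin 2) (Fin 2) ℂ[T;T⁻¹] :=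
  (T (Multiplicative.toAdd (deg g)) : ℂ[T;T⁻¹]) •
    ((α (A.cl g) : SL(2, ℂ)) : Matrix (Fin 2) (Fin 2) ℂ).map C

/-- `D x g` is the image under `Phi` of the Fox derivative of `g` with respect to the generator `x`. -/
structure IsFox (α : A.G →* SL(2, ℂ))
    (D : Option V → Fr V → Matrix (Fin 2) (Fin 2) ℂ[T;T⁻¹]) : Prop where
  mul : ∀ x g h, D x (g * h) = D x g + Phi A α g * D x h
  same : ∀ x, D x (FreeGroup.of x) = 1
  ne : ∀ x y, x ≠ y → D x (FreeGroup.of y) = 0

/-- `τ` is the symmetric torsion polynomial: `τ · det (Phi t - 1) = T ^ s · det (Phi (∂ rel v / ∂ c_w))`. -/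
def IsTorsion [Fintype V] [DecidableEq V] (α : A.G →* SL(2, ℂ)) (τ : ℂ[T;T⁻¹]) : Prop :=
  invert τ = τ ∧ ∃ D, IsFox A α D ∧ ∃ s : ℤ,
    τ * (Phi A α tt - 1).det =
      T s * (Matrix.of fun i j : V × Fin 2 => D (some j.1) (A.rel i.1) i.2 j.2).det

/-- The trace of `α g`. -/
noncomputable def trc (α : A.G →* SL(2, ℂ)) (g : A.G) : ℂ :=
  ((α g : SL(2, ℂ)) : Matrix (Fin 2) (Fin 2) ℂ).trace

/-- The kernel of the map to `ℤ` with `t ↦ 1`, `c_v ↦ 0` (the commutator subgroup of a knot group). -/
def Plumbing.K : Subgroup A.G := Subgroup.normalClosure (Set.range fun v => A.cl (cc v))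

/-- The properties of the holonomy representation which are used. -/
structure Holonomy (α : A.G →* SL(2, ℂ)) : Prop where
  inj : Function.Injective α
  par : trc A α (A.cl tt) = 2
  tf : ∀ g : A.G, g ≠ 1 → ∀ n : ℕ, n ≠ 0 → g ^ n ≠ 1
  par2 : ∀ g ∈ A.K, trc A α g = -2 → g ∈ ⁅A.K, A.K⁆

/-- An orientation reversing symmetry `θ` of the knot which permutes the bands by `σ`. -/
structure Mirror (α : A.G →* SL(2, ℂ)) (θ : A.G →* A.G) (σ : V → V) : Prop where
  invol : ∀ v, σ (σ v) = v
  free : ∀ v, σ v ≠ v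
  B : ∀ v, |A.B (σ v)| = |A.B v|
  tr : ∀ g : A.G, trc A α (θ g) = (starRingEnd ℂ) (trc A α g)
  cls : ∀ v, IsConj (θ (A.cl (cc v))) (A.cl (cc (σ v))) ∨
    IsConj (θ (A.cl (cc v))) (A.cl (cc (σ v)))⁻¹

/-- The top coefficient of `τ` is a positive real number. -/
def PosTop (τ : ℂ[T;T⁻¹]) : Prop :=
  ∃ (d : ℤ) (r : ℝ), 0 < r ∧ τ.coeff d = (r : ℂ) ∧ ∀ e, d < e → τ.coeff e = 0

end Pool.Agent.Lib.MP_31e124_gt.BP
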