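import Mathlib

/-!
# MP_31e124_gt, package BP: the determinant of `1 + C + … + C ^ (b - 1)`, `C` of determinant one
-/

set_option autoImplicit false

namespace Pool.Agent.Lib.MP_31e124_gt.BP

open Matrix

/-- `1 + C + … + C ^ (b - 1)` -/
noncomputable def geo (C : Matrix (Fin 2) (Fin 2) ℂ) (b : ℕ) : Matrix (Fin 2) (Fin 2) ℂ :=
  ∑ k ∈ Finset.range b, C ^ k

/-- The coefficients of `C ^ k` in the basis `C`, `1`. -/
def uw (τ : ℂ) : ℕ → ℂ × ℂ
  | 0 => (0, 1)
  | k + 1 => (τ * (uw τ k).1 + (uw τ k).2, -(uw τ k).1)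

theorem sq2 (C : Matrix (Fin 2) (Fin 2) ℂ) (h : C.det = 1) :
    C * C = C.trace • C - 1 := by
  rw [Matrix.det_fin_two] at h
  ext i j
  fin_cases i <;> fin_cases j <;>
    simp [Matrix.mul_apply, Fin.sum_univ_two, Matrix.trace_fin_two] <;>
    first
      | linear_combination (-1) * h
      | linear_combination 0 * h

theorem pow2 (C : Matrix (Fin 2) (Fin 2) ℂ) (h : C.det = 1) (k : ℕ) :
    C ^ k = (uw C.trace k).1 • C + (uw C.trace k).2 • (1 : Matrix (Fin 2) (Fin 2) ℂ) := by
  induction k with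
  | zero => simp [uw]
  | succ k ih =>
    rw [pow_succ, ih, add_mul, smul_mul_assoc, smul_mul_assoc, one_mul, sq2 C h]
    simp only [uw]
    module

theorem uw_conj (τ : ℂ) (k : ℕ) :
    uw ((starRingEnd ℂ) τ) k = ((starRingEnd ℂ) (uw τ k).1, (starRingEnd ℂ) (uw τ k).2) := by
  induction k with
  | zero => simp [uw]
  | succ k ih => simp [uw, ih]

theorem uw_two (k : ℕ) : uw 2 k = ((k : ℂ), 1 - (k : ℂ)) := by
  induction k with
  | zero => simp [uw]
  | succ k ih =>
    simp only [uw, ih]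
    push_cast
    rw [Prod.mk.injEq]
    constructor <;> ring

theorem det_comb (C : Matrix (Fin 2) (Fin 2) ℂ) (h : C.det = 1) (x y : ℂ) :
    (x • C + y • (1 : Matrix (Fin 2) (Fin 2) ℂ)).det = x ^ 2 + x * y * C.trace + y ^ 2 := by
  rw [Matrix.det_fin_two] at h ⊢
  simp [Matrix.trace_fin_two]
  linear_combination x ^ 2 * h

theorem tr_comb (C : Matrix (Fin 2) (Fin 2) ℂ) (x y : ℂ) :
    (x • C + y • (1 : Matrix (Fin 2) (Fin 2) ℂ)).trace = x * C.trace + 2 * y := by
  simp [Matrix.trace_fin_two]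
  ring

theorem geo2 (C : Matrix (Fin 2) (Fin 2) ℂ) (h : C.det = 1) (b : ℕ) :
    geo C b = (∑ k ∈ Finset.range b, (uw C.trace k).1) • C +
      (∑ k ∈ Finset.range b, (uw C.trace k).2) • (1 : Matrix (Fin 2) (Fin 2) ℂ) := by
  unfold geo
  rw [Finset.sum_congr rfl (fun k _ => pow2 C h k), Finset.sum_add_distrib, ← Finset.sum_smul,
    ← Finset.sum_smul]

theorem geo_conj (C C' : Matrix (Fin 2) (Fin 2) ℂ) (h : C.det = 1) (h' : C'.det = 1)
    (ht : C'.trace = (starRingEnd ℂ) C.trace) (b : ℕ) :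
    (geo C' b).det = (starRingEnd ℂ) (geo C b).det := by
  rw [geo2 C h, geo2 C' h', det_comb C h, det_comb C' h', ht]
  simp only [uw_conj, map_add, map_mul, map_pow, map_sum]

theorem geo_mul (C : Matrix (Fin 2) (Fin 2) ℂ) (b : ℕ) : geo C b * (C - 1) = C ^ b - 1 :=
  geom_sum_mul C b

theorem det_sub_one (C : Matrix (Fin 2) (Fin 2) ℂ) (h : C.det = 1) : (C - 1).det = 2 - C.trace := by
  rw [Matrix.det_fin_two] at h ⊢
  simp [Matrix.trace_fin_two]
  linear_combination h

theorem geo_zero (C : Matrix (Fin 2) (Fin 2) ℂ) (h : C.det = 1) (b : ℕ) (hb : b ≠ 0)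
    (h0 : (geo C b).det = 0) : C.trace ≠ 2 ∧ (C.trace = -2 ∨ C ^ b = 1) := by
  refine ⟨?_, ?_⟩
  · intro ht
    rw [geo2 C h, det_comb C h, ht] at h0
    simp only [uw_two, Finset.sum_sub_distrib, Finset.sum_const, Finset.card_range, nsmul_eq_mul,
      mul_one] at h0
    have h1 : (b : ℂ) ^ 2 = 0 := by linear_combination h0
    exact hb (by exact_mod_cast pow_eq_zero_iff (two_ne_zero) |>.1 h1)
  · by_cases ht : C.trace = -2
    · left; exact ht
    right
    by_cases ht2 : C.trace = 2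
    · exfalso
      rw [geo2 C h, det_comb C h, ht2] at h0
      simp only [uw_two, Finset.sum_sub_distrib, Finset.sum_const, Finset.card_range,
        nsmul_eq_mul, mul_one] at h0
      have h1 : (b : ℂ) ^ 2 = 0 := by linear_combination h0
      exact hb (by exact_mod_cast pow_eq_zero_iff (two_ne_zero) |>.1 h1)
    have hdet : (C ^ b).det = 1 := by rw [Matrix.det_pow, h, one_pow]
    have h1 : (C ^ b).trace = 2 := by
      have h2 := congrArg Matrix.det (geo_mul C b)
      rw [Matrix.det_mul, h0, zero_mul, det_sub_one _ hdet] at h2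
      linear_combination h2
    have hp := pow2 C h b
    obtain ⟨u, w, huw⟩ : ∃ u w, uw C.trace b = (u, w) := ⟨_, _, rfl⟩
    rw [huw] at hp
    have hd : u ^ 2 + u * w * C.trace + w ^ 2 = 1 := by
      rw [← det_comb C h, ← hdet, hp]
    have htr : u * C.trace + 2 * w = 2 := by
      rw [← tr_comb, ← h1, hp]
    have hu : u ^ 2 * ((C.trace - 2) * (C.trace + 2)) = 0 := by
      linear_combination (u * C.trace + 2 * w + 2) * htr - 4 * hd
    have hne : (C.trace - 2) * (C.trace + 2) ≠ 0 := by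
      apply mul_ne_zero (sub_ne_zero.2 ht2)
      intro h3
      exact ht (by linear_combination h3)
    have hu0 : u = 0 := by
      rcases mul_eq_zero.1 hu with h3 | h3
      · exact pow_eq_zero_iff (two_ne_zero) |>.1 h3
      · exact absurd h3 hne
    have hw : w = 1 := by
      rw [hu0] at htr
      linear_combination htr / 2
    rw [hp, hu0, hw]
    simp

end Pool.Agent.Lib.MP_31e124_gt.BP
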