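import Pool.Agent.Lib.MP_31e124_gt.BP.Defs
import Pool.Agent.Lib.MP_31e124_gt.BP.Tr

/-!
# MP_31e124_gt, package BP: Fox calculus for a plumbing
-/

set_option autoImplicit false

namespace Pool.Agent.Lib.MP_31e124_gt.BP

open LaurentPolynomial
open scoped MatrixGroups

variable {V : Type} (A : Plumbing V) (α : A.G →* SL(2, ℂ))

/-- The matrix of a word. -/
def aM (g : Fr V) : Matrix (Fin 2) (Fin 2) ℂ := ((α (A.cl g) : SL(2, ℂ)) : Matrix (Fin 2) (Fin 2) ℂ)

theorem aM_one : aM A α 1 = 1 := by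
  have h : α (A.cl 1) = 1 := (congrArg α (map_one (PresentedGroup.mk _))).trans (map_one α)
  unfold aM
  rw [h]
  exact Matrix.SpecialLinearGroup.coe_one

theorem aM_mul (g h : Fr V) : aM A α (g * h) = aM A α g * aM A α h := by
  have h : α (A.cl (g * h)) = α (A.cl g) * α (A.cl h) :=
    (congrArg α (map_mul (PresentedGroup.mk _) g h)).trans (map_mul α _ _)
  unfold aM
  rw [h]
  exact Matrix.SpecialLinearGroup.coe_mul _ _

theorem aM_det (g : Fr V) : (aM A α g).det = 1 := by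
  unfold aM
  exact Matrix.SpecialLinearGroup.det_coe _

theorem aM_pow (g : Fr V) (n : ℕ) : aM A α (g ^ n) = aM A α g ^ n := by
  induction n with
  | zero => rw [pow_zero, pow_zero, aM_one]
  | succ n ih => rw [pow_succ, pow_succ, aM_mul, ih]

theorem Phi_eq (g : Fr V) : Phi A α g =
    (T (Multiplicative.toAdd (deg g)) : ℂ[T;T⁻¹]) • (aM A α g).map C := rfl

theorem Phi_mul (g h : Fr V) : Phi A α (g * h) = Phi A α g * Phi A α h := by
  rw [Phi_eq, Phi_eq, Phi_eq, aM_mul, map_mul, toAdd_mul, T_add, Matrix.map_mul,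
    Matrix.smul_mul, Matrix.mul_smul, smul_smul]

theorem Phi_one : Phi A α 1 = 1 := by
  rw [Phi_eq, aM_one, map_one, toAdd_one, T_zero, one_smul, Matrix.map_one]
  · exact map_zero C
  · exact map_one C

variable {A α}
variable {D : Option V → Fr V → Matrix (Fin 2) (Fin 2) ℂ[T;T⁻¹]}

theorem fox_one (h : IsFox A α D) (x : Option V) : D x 1 = 0 := by
  have h1 := h.mul x 1 1
  rw [mul_one, Phi_one, one_mul] at h1
  exact (left_eq_add.1 h1)

theorem fox_inv (h : IsFox A α D) (x : Option V) (g : Fr V) :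
    D x g⁻¹ = -(Phi A α g⁻¹ * D x g) := by
  have h1 := h.mul x g⁻¹ g
  rw [inv_mul_cancel, fox_one h] at h1
  exact eq_neg_of_add_eq_zero_left h1.symm

theorem fox_pow (h : IsFox A α D) (x : Option V) (g : Fr V) (n : ℕ) :
    D x (g ^ n) = (∑ k ∈ Finset.range n, Phi A α g ^ k) * D x g := by
  induction n with
  | zero => rw [pow_zero, fox_one h, Finset.range_zero, Finset.sum_empty, zero_mul]
  | succ n ih =>
    have hp : Phi A α (g ^ n) = Phi A α g ^ n := by
      clear ih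
      induction n with
      | zero => rw [pow_zero, pow_zero, Phi_one]
      | succ n ih => rw [pow_succ, pow_succ, Phi_mul, ih]
    rw [pow_succ, h.mul, ih, hp, Finset.sum_range_succ, add_mul]

theorem fox_zero (h : IsFox A α D) (S : Set V) (x : V) (hx : x ∉ S) (g : Fr V)
    (hg : g ∈ Subgroup.closure {y | ∃ w, w ∈ S ∧ y = cc w}) : D (some x) g = 0 := by
  induction hg using Subgroup.closure_induction with
  | mem y hy =>
    obtain ⟨w, hw, rfl⟩ := hy
    apply h.ne
    intro h1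
    rw [Option.some.injEq] at h1
    exact hx (h1 ▸ hw)
  | one => exact fox_one h _
  | mul a b _ _ ha hb => rw [h.mul, ha, hb, mul_zero, add_zero]
  | inv a _ ha => rw [fox_inv h, ha, mul_zero, neg_zero]

/-- The words in the loops through the bands. -/
def Kc (V : Type) : Subgroup (Fr V) := Subgroup.closure {y | ∃ w, y = cc w}

theorem deg_Kc (g : Fr V) (hg : g ∈ Kc V) : deg g = 1 := by
  induction hg using Subgroup.closure_induction with
  | mem y hy =>
    obtain ⟨w, rfl⟩ := hy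
    unfold deg cc
    rw [FreeGroup.lift_apply_of]
    rfl
  | one => exact map_one _
  | mul a b _ _ ha hb => rw [map_mul, ha, hb, one_mul]
  | inv a _ ha => rw [map_inv, ha, inv_one]

theorem Phi_Kc (g : Fr V) (hg : g ∈ Kc V) : Phi A α g = (aM A α g).map C := by
  rw [Phi_eq, deg_Kc g hg, toAdd_one, T_zero, one_smul]

theorem fox_const (h : IsFox A α D) (g : Fr V) (hg : g ∈ Kc V) (w : V) :
    ∃ N : Matrix (Fin 2) (Fin 2) ℂ, D (some w) g = N.map C := by
  classical
  induction hg using Subgroup.closure_induction with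
  | mem y hy =>
    obtain ⟨u, rfl⟩ := hy
    by_cases hu : u = w
    · subst hu
      refine ⟨1, ?_⟩
      have := h.same (some u)
      unfold cc
      rw [this, Matrix.map_one]
      · exact map_zero C
      · exact map_one C
    · refine ⟨0, ?_⟩
      unfold cc
      rw [h.ne (some w) (some u) (fun h1 => hu (Option.some.inj h1).symm), Matrix.map_zero]
      exact map_zero C
  | one =>
    refine ⟨0, ?_⟩
    rw [fox_one h, Matrix.map_zero]
    exact map_zero C
  | mul a b ha' hb' ha hb =>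
    obtain ⟨M, hM⟩ := ha
    obtain ⟨N, hN⟩ := hb
    refine ⟨M + aM A α a * N, ?_⟩
    rw [h.mul, hM, hN, Phi_Kc a ha', Matrix.map_add _ (fun x y => map_add C x y), Matrix.map_mul]
  | inv a ha' ha =>
    obtain ⟨M, hM⟩ := ha
    refine ⟨-(aM A α a⁻¹ * M), ?_⟩
    rw [fox_inv h, hM, Phi_Kc a⁻¹ ((Kc V).inv_mem ha'), ← Matrix.map_mul]
    exact (map_neg (C : ℂ →+* ℂ[T;T⁻¹]).mapMatrix _).symm

theorem cc_Kc (v : V) : cc v ∈ Kc V := Subgroup.subset_closure ⟨v, rfl⟩

theorem sub_Kc {p : V → Prop} {g : Fr V}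
    (hg : g ∈ Subgroup.closure {x | ∃ w, p w ∧ x = cc w}) : g ∈ Kc V := by
  refine Subgroup.closure_mono ?_ hg
  rintro x ⟨w, _, rfl⟩
  exact ⟨w, rfl⟩

theorem mid_Kc (v : V) : A.P v * cc v ^ A.B v * A.Q v ∈ Kc V :=
  (Kc V).mul_mem ((Kc V).mul_mem (sub_Kc (A.hP v)) ((Kc V).zpow_mem (cc_Kc v) _)) (sub_Kc (A.hQ v))

theorem L_Kc (v : V) : A.L v ∈ Kc V := by
  unfold Plumbing.L
  split_ifs
  · exact mid_Kc v
  · exact (Kc V).zpow_mem (cc_Kc v) _

theorem R_Kc (v : V) : A.R v ∈ Kc V := by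
  unfold Plumbing.R
  split_ifs
  · exact (Kc V).zpow_mem (cc_Kc v) _
  · exact mid_Kc v

theorem fox_rel (h : IsFox A α D) (v w : V) :
    D (some w) (A.rel v) = D (some w) (A.L v) - Phi A α tt * D (some w) (A.R v) := by
  have hDt : D (some w) tt = 0 := h.ne (some w) none (by simp)
  have hDt' : D (some w) tt⁻¹ = 0 := by rw [fox_inv h, hDt, mul_zero, neg_zero]
  have hrel : Phi A α (A.rel v) = 1 := by
    rw [Phi_eq]
    have h1 : aM A α (A.rel v) = 1 := by
      unfold aM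
      have h2 : A.cl (A.rel v) = 1 :=
        PresentedGroup.one_of_mem (Set.mem_range_self v)
      rw [h2, map_one]
      rfl
    have h3 : deg (A.rel v) = 1 := by
      unfold Plumbing.rel
      rw [map_mul, map_mul, map_mul, map_inv, map_inv, deg_Kc _ (L_Kc v), deg_Kc _ (R_Kc v),
        inv_one, mul_one, mul_inv_cancel, mul_one]
    rw [h1, h3, toAdd_one, T_zero, one_smul, Matrix.map_one]
    · exact map_zero C
    · exact map_one C
  have hLt : Phi A α (A.L v * (tt * (A.R v)⁻¹)) = Phi A α tt := by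
    have h1 : A.L v * (tt * (A.R v)⁻¹) = A.rel v * tt := by
      unfold Plumbing.rel
      group
    rw [h1, Phi_mul, hrel, one_mul]
  have h2 : D (some w) (A.rel v) = D (some w) (A.L v) +
      Phi A α (A.L v) * D (some w) (tt * (A.R v)⁻¹ * tt⁻¹) := by
    unfold Plumbing.rel
    rw [h.mul]
  rw [h2, h.mul, hDt', mul_zero, add_zero, h.mul, hDt, zero_add, fox_inv h, mul_neg, mul_neg,
    ← sub_eq_add_neg, ← mul_assoc, ← mul_assoc, ← Phi_mul, ← Phi_mul, mul_assoc, hLt]

/-- The derivative of a power. -/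
theorem fox_zpow (h : IsFox A α D) (v : V) (b : ℤ) :
    ∃ N : Matrix (Fin 2) (Fin 2) ℂ, D (some v) (cc v ^ b) = N.map C ∧
      N.det = (geo (aM A α (cc v)) b.natAbs).det := by
  have hnat : ∀ n : ℕ, D (some v) (cc v ^ n) = (geo (aM A α (cc v)) n).map C := by
    intro n
    rw [fox_pow h]
    have h1 : D (some v) (cc v) = 1 := h.same (some v)
    rw [h1, mul_one]
    unfold geo
    have h2 : ∀ k, Phi A α (cc v) ^ k = (aM A α (cc v) ^ k).map C := by
      intro k
      rw [Phi_Kc _ (cc_Kc v)]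
      exact ((C : ℂ →+* ℂ[T;T⁻¹]).mapMatrix.map_pow (aM A α (cc v)) k).symm
    rw [Finset.sum_congr rfl (fun k _ => h2 k)]
    exact (map_sum (C : ℂ →+* ℂ[T;T⁻¹]).mapMatrix _ _).symm
  rcases le_or_gt 0 b with hb | hb
  · obtain ⟨n, rfl⟩ := Int.eq_ofNat_of_zero_le hb
    refine ⟨geo (aM A α (cc v)) n, ?_, ?_⟩
    · rw [zpow_natCast, hnat]
    · rw [Int.natAbs_natCast]
  · obtain ⟨n, hn⟩ : ∃ n : ℕ, b = -(n : ℤ) := ⟨b.natAbs, by omega⟩
    subst hn
    refine ⟨-(aM A α (cc v ^ n)⁻¹ * geo (aM A α (cc v)) n), ?_, ?_⟩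
    · rw [zpow_neg, zpow_natCast, fox_inv h, hnat,
        Phi_Kc _ ((Kc V).inv_mem ((Kc V).pow_mem (cc_Kc v) n)), ← Matrix.map_mul]
      exact (map_neg (C : ℂ →+* ℂ[T;T⁻¹]).mapMatrix _).symm
    · rw [Matrix.det_neg, Matrix.det_mul, aM_det, one_mul, Int.natAbs_neg, Int.natAbs_natCast,
        Fintype.card_fin]
      norm_num

/-- The derivative of `P v * c_v ^ B v * Q v`. -/
theorem fox_mid (h : IsFox A α D) (v : V) :
    (∃ N : Matrix (Fin 2) (Fin 2) ℂ,
      D (some v) (A.P v * cc v ^ A.B v * A.Q v) = N.map C ∧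
        N.det = (geo (aM A α (cc v)) (A.B v).natAbs).det) ∧
    ∀ w, v ≠ w → ¬ (A.blk w ≠ A.blk v ∨ A.rk w < A.rk v) →
      D (some w) (A.P v * cc v ^ A.B v * A.Q v) = 0 := by
  have key : ∀ w, ¬ (A.blk w ≠ A.blk v ∨ A.rk w < A.rk v) →
      D (some w) (A.P v) = 0 ∧ D (some w) (A.Q v) = 0 := by
    intro w hw
    exact ⟨fox_zero h {w | A.blk w ≠ A.blk v ∨ A.rk w < A.rk v} w hw _ (A.hP v),
      fox_zero h {w | A.blk w ≠ A.blk v ∨ A.rk w < A.rk v} w hw _ (A.hQ v)⟩
  constructor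
  · obtain ⟨hP, hQ⟩ := key v (by simp)
    obtain ⟨N, hN, hd⟩ := fox_zpow h v (A.B v)
    refine ⟨aM A α (A.P v) * N, ?_, ?_⟩
    · rw [h.mul, h.mul, hP, hQ, mul_zero, add_zero, zero_add, hN,
        Phi_Kc _ (sub_Kc (A.hP v)), Matrix.map_mul]
    · rw [Matrix.det_mul, aM_det, one_mul, hd]
  · intro w hvw hw
    obtain ⟨hP, hQ⟩ := key w hw
    have hz : D (some w) (cc v ^ A.B v) = 0 := by
      apply fox_zero h {v} w (fun h1 => hvw (Set.mem_singleton_iff.1 h1).symm)
      apply Subgroup.zpow_mem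
      exact Subgroup.subset_closure ⟨v, Set.mem_singleton v, rfl⟩
    rw [h.mul, h.mul, hP, hQ, hz, mul_zero, mul_zero, add_zero, add_zero]

theorem fox_pure (h : IsFox A α D) (v w : V) (hvw : v ≠ w) : D (some w) (cc v ^ A.B v) = 0 := by
  apply fox_zero h {v} w (fun h1 => hvw (Set.mem_singleton_iff.1 h1).symm)
  apply Subgroup.zpow_mem
  exact Subgroup.subset_closure ⟨v, Set.mem_singleton v, rfl⟩

end Pool.Agent.Lib.MP_31e124_gt.BP
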