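import Mathlib

/-!
# MP_31e124_gt, package BP: determinants of block triangular matrices

The rows and columns are indexed by `V × κ`; the block `(v, w)` vanishes unless `v = w` or
`f w < f v`.
-/

set_option autoImplicit false

namespace Pool.Agent.Lib.MP_31e124_gt.BP

open Matrix

/-- The diagonal blocks. -/
def blo {V κ S : Type*} (M : Matrix (V × κ) (V × κ) S) (v w : V) : Matrix κ κ S :=
  Matrix.of fun i j => M (v, i) (w, j)

theorem det_tri {V κ S : Type} [Fintype V] [DecidableEq V] [Fintype κ] [DecidableEq κ] [Nonempty κ]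
    [CommRing S] (M : Matrix (V × κ) (V × κ) S) (f : V → ℕ)
    (h : ∀ v w, v ≠ w → ¬ f w < f v → ∀ i j, M (v, i) (w, j) = 0) :
    M.det = ∏ v, (blo M v v).det := by
  classical
  let e : V ≃ Fin (Fintype.card V) := Fintype.equivFin V
  let b' : V → ℕ ×ₗ Fin (Fintype.card V) := fun v => toLex (f v, e v)
  have hinj : Function.Injective b' := by
    intro v w hvw
    have h1 : (f v, e v) = (f w, e w) := toLex.injective hvw
    exact e.injective (Prod.mk.inj h1).2
  let b : V × κ → ℕ ×ₗ Fin (Fintype.card V) := fun p => b' p.1
  have hbt : BlockTriangular Mᵀ b := by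
    intro p q hpq
    rw [Matrix.transpose_apply]
    have hne : q.1 ≠ p.1 := by
      intro h1
      have : b q = b p := congrArg b' h1
      exact absurd hpq (by rw [this]; exact lt_irrefl _)
    apply h q.1 p.1 hne
    intro h2
    have h3 : b' p.1 < b' q.1 := by
      rw [Prod.Lex.lt_iff]
      left
      exact h2
    exact absurd hpq (not_lt.2 h3.le)
  rw [← Matrix.det_transpose, hbt.det]
  have him : Finset.univ.image b = Finset.univ.image b' := by
    ext a
    simp only [Finset.mem_image, Finset.mem_univ, true_and]
    constructor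
    · rintro ⟨p, hp⟩
      exact ⟨p.1, hp⟩
    · rintro ⟨v, hv⟩
      exact ⟨(v, Classical.arbitrary κ), hv⟩
  rw [him, Finset.prod_image (fun x _ y _ hxy => hinj hxy)]
  refine Finset.prod_congr rfl (fun v _ => ?_)
  let ev : κ ≃ {p : V × κ // b p = b' v} :=
    { toFun := fun i => ⟨(v, i), rfl⟩
      invFun := fun p => p.1.2
      left_inv := fun i => rfl
      right_inv := fun p => by
        obtain ⟨⟨w, i⟩, hp⟩ := p
        have : w = v := hinj hp
        subst this
        rfl }
  rw [← Matrix.det_submatrix_equiv_self ev, ← Matrix.det_transpose (blo M v v)]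
  rfl

end Pool.Agent.Lib.MP_31e124_gt.BP
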