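import Pool.Agent.Lib.MP_31e124_gt.BP.Defs
import Pool.Agent.Lib.MP_31e124_gt.BP.Tri

/-!
# MP_31e124_gt, package BP: the loops through the bands are not in the second derived subgroup
-/

set_option autoImplicit false

namespace Pool.Agent.Lib.MP_31e124_gt.BP

open Matrix

theorem derived_two {G H A : Type} [Group G] [Group H] [CommGroup A] (ψ : G →* H) (π : H →* A)
    (hc : ∀ x y, π x = 1 → π y = 1 → x * y = y * x) (N : Subgroup G)
    (hN : ∀ x ∈ N, π (ψ x) = 1) (g : G) (hg : g ∈ ⁅N, N⁆) : ψ g = 1 := by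
  have h1 : ⁅N, N⁆ ≤ ψ.ker := by
    rw [Subgroup.commutator_le]
    intro a ha b hb
    rw [MonoidHom.mem_ker, map_commutatorElement, commutatorElement_eq_one_iff_mul_comm]
    exact hc _ _ (hN a ha) (hN b hb)
  exact h1 hg

section

variable {V : Type} [Fintype V] [DecidableEq V]

/-- The exponent sums. -/
noncomputable def ab : Fr V →* Multiplicative (V → ℚ) :=
  FreeGroup.lift fun x => x.elim 1 fun v => Multiplicative.ofAdd (Pi.single v 1)

theorem ab_cc (v : V) : ab (cc v) = Multiplicative.ofAdd (Pi.single v (1 : ℚ)) := by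
  unfold ab cc
  rw [FreeGroup.lift_apply_of]
  rfl

theorem ab_zero (S : Set V) (x : V) (hx : x ∉ S) (g : Fr V)
    (hg : g ∈ Subgroup.closure {y | ∃ w, w ∈ S ∧ y = cc w}) :
    (Multiplicative.toAdd (ab g)) x = 0 := by
  induction hg using Subgroup.closure_induction with
  | mem y hy =>
    obtain ⟨w, hw, rfl⟩ := hy
    rw [ab_cc, toAdd_ofAdd, Pi.single_apply, if_neg]
    rintro rfl
    exact hx hw
  | one => rw [map_one]; rfl
  | mul a b _ _ ha hb => rw [map_mul, toAdd_mul, Pi.add_apply, ha, hb, add_zero]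
  | inv a _ ha => rw [map_inv, toAdd_inv, Pi.neg_apply, ha, neg_zero]

theorem ab_zpow (v : V) (b : ℤ) : Multiplicative.toAdd (ab (cc v ^ b)) = Pi.single v (b : ℚ) := by
  rw [map_zpow, toAdd_zpow, ab_cc, toAdd_ofAdd]
  ext w
  rw [Pi.smul_apply, Pi.single_apply, Pi.single_apply]
  split_ifs <;> simp

variable (A : Plumbing V)

/-- The exponent sums of the push-offs. -/
noncomputable def mL : Matrix V V ℚ := Matrix.of fun v => Multiplicative.toAdd (ab (A.L v))

noncomputable def mR : Matrix V V ℚ := Matrix.of fun v => Multiplicative.toAdd (ab (A.R v))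

theorem ab_mid (v : V) :
    Multiplicative.toAdd (ab (A.P v * cc v ^ A.B v * A.Q v)) v = (A.B v : ℚ) ∧
    ∀ w, v ≠ w → ¬ (A.blk w ≠ A.blk v ∨ A.rk w < A.rk v) →
      Multiplicative.toAdd (ab (A.P v * cc v ^ A.B v * A.Q v)) w = 0 := by
  have key : ∀ w, ¬ (A.blk w ≠ A.blk v ∨ A.rk w < A.rk v) →
      Multiplicative.toAdd (ab (A.P v)) w = 0 ∧ Multiplicative.toAdd (ab (A.Q v)) w = 0 := by
    intro w hw
    exact ⟨ab_zero {w | A.blk w ≠ A.blk v ∨ A.rk w < A.rk v} w hw _ (A.hP v),
      ab_zero {w | A.blk w ≠ A.blk v ∨ A.rk w < A.rk v} w hw _ (A.hQ v)⟩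
  constructor
  · obtain ⟨h1, h2⟩ := key v (by simp)
    rw [map_mul ab, map_mul ab, toAdd_mul, toAdd_mul, Pi.add_apply, Pi.add_apply, h1, h2, ab_zpow,
      Pi.single_eq_same, zero_add, add_zero]
  · intro w hvw hw
    obtain ⟨h1, h2⟩ := key w hw
    rw [map_mul ab, map_mul ab, toAdd_mul, toAdd_mul, Pi.add_apply, Pi.add_apply, h1, h2, ab_zpow,
      Pi.single_eq_of_ne hvw.symm, zero_add, add_zero]

theorem det_one (M : Matrix V V ℚ) (f : V → ℕ) (h : ∀ v w, v ≠ w → ¬ f w < f v → M v w = 0) :
    M.det = ∏ v, M v v := by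
  have h1 := det_tri (κ := Unit) (Matrix.of fun p q : V × Unit => M p.1 q.1) f
    (fun v w hvw hf _ _ => h v w hvw hf)
  have h2 : (Matrix.of fun p q : V × Unit => M p.1 q.1).det = M.det := by
    rw [← Matrix.det_submatrix_equiv_self (Equiv.prodPUnit V) M]
    rfl
  rw [← h2, h1]
  refine Finset.prod_congr rfl (fun v _ => ?_)
  rw [Matrix.det_unique]
  rfl

theorem mL_det : (mL A).det ≠ 0 := by
  rw [det_one (mL A) (fun v => if A.blk v then A.rk v + 1 else 0)]
  · rw [Finset.prod_ne_zero_iff]
    intro v _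
    have h1 : mL A v v = (A.B v : ℚ) := by
      show Multiplicative.toAdd (ab (A.L v)) v = (A.B v : ℚ)
      unfold Plumbing.L
      split_ifs with hb
      · exact (ab_mid A v).1
      · rw [ab_zpow, Pi.single_eq_same]
    rw [h1]
    exact_mod_cast A.hB v
  · intro v w hvw hf
    show Multiplicative.toAdd (ab (A.L v)) w = 0
    unfold Plumbing.L
    split_ifs with hb
    · apply (ab_mid A v).2 w hvw
      rintro (h1 | h1)
      · apply hf
        have hw : A.blk w = false := by
          rw [hb] at h1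
          exact Bool.eq_false_iff.2 h1
        simp [hw, hb]
      · apply hf
        by_cases hw : A.blk w = true
        · simp only [hw, hb, if_true]; omega
        · simp [hw, hb]
    · rw [ab_zpow, Pi.single_eq_of_ne hvw.symm]

theorem mR_det : (mR A).det ≠ 0 := by
  rw [det_one (mR A) (fun v => if A.blk v then 0 else A.rk v + 1)]
  · rw [Finset.prod_ne_zero_iff]
    intro v _
    have h1 : mR A v v = (A.B v : ℚ) := by
      show Multiplicative.toAdd (ab (A.R v)) v = (A.B v : ℚ)
      unfold Plumbing.R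
      split_ifs with hb
      · rw [ab_zpow, Pi.single_eq_same]
      · exact (ab_mid A v).1
    rw [h1]
    exact_mod_cast A.hB v
  · intro v w hvw hf
    show Multiplicative.toAdd (ab (A.R v)) w = 0
    unfold Plumbing.R
    split_ifs with hb
    · rw [ab_zpow, Pi.single_eq_of_ne hvw.symm]
    · apply (ab_mid A v).2 w hvw
      have hb' : A.blk v = false := Bool.eq_false_iff.2 hb
      rintro (h1 | h1)
      · apply hf
        have hw : A.blk w = true := by
          rw [hb'] at h1
          exact Bool.eq_true_of_not_eq_false h1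
        simp [hw, hb']
      · apply hf
        by_cases hw : A.blk w = true
        · simp [hw, hb']
        · have hw' : A.blk w = false := Bool.eq_false_iff.2 hw
          simp only [hw', hb', Bool.false_eq_true, if_false]; omega

/-- The action of the meridian. -/
noncomputable def actE : (V → ℚ) ≃+ (V → ℚ) where
  toFun x := Matrix.vecMul x ((mR A)⁻¹ * mL A)
  invFun x := Matrix.vecMul x ((mL A)⁻¹ * mR A)
  left_inv x := by
    have h1 : IsUnit (mL A).det := isUnit_iff_ne_zero.2 (mL_det A)
    have h2 : IsUnit (mR A).det := isUnit_iff_ne_zero.2 (mR_det A)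
    show Matrix.vecMul (Matrix.vecMul x ((mR A)⁻¹ * mL A)) ((mL A)⁻¹ * mR A) = x
    rw [Matrix.vecMul_vecMul, Matrix.mul_assoc, Matrix.mul_nonsing_inv_cancel_left _ _ h1,
      Matrix.nonsing_inv_mul _ h2, Matrix.vecMul_one]
  right_inv x := by
    have h1 : IsUnit (mL A).det := isUnit_iff_ne_zero.2 (mL_det A)
    have h2 : IsUnit (mR A).det := isUnit_iff_ne_zero.2 (mR_det A)
    show Matrix.vecMul (Matrix.vecMul x ((mL A)⁻¹ * mR A)) ((mR A)⁻¹ * mL A) = x
    rw [Matrix.vecMul_vecMul, Matrix.mul_assoc, Matrix.mul_nonsing_inv_cancel_left _ _ h2,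
      Matrix.nonsing_inv_mul _ h1, Matrix.vecMul_one]
  map_add' x y := Matrix.add_vecMul _ x y

theorem actE_R (v : V) : actE A (Multiplicative.toAdd (ab (A.R v))) =
    Multiplicative.toAdd (ab (A.L v)) := by
  have h2 : IsUnit (mR A).det := isUnit_iff_ne_zero.2 (mR_det A)
  have h3 : Multiplicative.toAdd (ab (A.R v)) = Matrix.vecMul (Pi.single v 1) (mR A) := by
    rw [Matrix.single_one_vecMul]
    rfl
  show Matrix.vecMul (Multiplicative.toAdd (ab (A.R v))) ((mR A)⁻¹ * mL A) = _
  rw [h3, Matrix.vecMul_vecMul, Matrix.mul_nonsing_inv_cancel_left _ _ h2,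
    Matrix.single_one_vecMul]
  rfl

/-- The action of `ℤ`. -/
noncomputable def act : Multiplicative ℤ →* MulAut (Multiplicative (V → ℚ)) :=
  zpowersHom _ (AddEquiv.toMultiplicative (actE A))

theorem act_R (v : V) : act A (Multiplicative.ofAdd 1) (ab (A.R v)) = ab (A.L v) := by
  unfold act
  rw [zpowersHom_apply, toAdd_ofAdd, zpow_one]
  exact congrArg Multiplicative.ofAdd (actE_R A v)

/-- The images of the generators. -/
noncomputable def gen : Option V → Multiplicative (V → ℚ) ⋊[act A] Multiplicative ℤ := fun x =>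
  x.elim (SemidirectProduct.inr (Multiplicative.ofAdd 1))
    fun v => SemidirectProduct.inl (Multiplicative.ofAdd (Pi.single v 1))

theorem gen_Kc (g : Fr V) (hg : g ∈ Subgroup.closure {y : Fr V | ∃ w, y = cc w}) :
    FreeGroup.lift (gen A) g = SemidirectProduct.inl (ab g) := by
  induction hg using Subgroup.closure_induction with
  | mem y hy =>
    obtain ⟨w, rfl⟩ := hy
    rw [ab_cc]
    unfold cc
    rw [FreeGroup.lift_apply_of]
    rfl
  | one => rw [map_one, map_one, map_one]
  | mul a b _ _ ha hb => rw [map_mul, map_mul, map_mul, ha, hb]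
  | inv a _ ha => rw [map_inv, map_inv, map_inv, ha]

theorem closure_cc (v : V) : cc v ∈ Subgroup.closure {y : Fr V | ∃ w, y = cc w} :=
  Subgroup.subset_closure (show cc v ∈ {y : Fr V | ∃ w, y = cc w} from ⟨v, rfl⟩)

theorem closure_mid (v : V) :
    A.P v * cc v ^ A.B v * A.Q v ∈ Subgroup.closure {y : Fr V | ∃ w, y = cc w} := by
  have h1 : ∀ g, g ∈ Subgroup.closure {x | ∃ w, (A.blk w ≠ A.blk v ∨ A.rk w < A.rk v) ∧ x = cc w} →
      g ∈ Subgroup.closure {y : Fr V | ∃ w, y = cc w} := by
    intro g hg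
    refine Subgroup.closure_mono ?_ hg
    rintro x ⟨w, _, rfl⟩
    exact ⟨w, rfl⟩
  exact Subgroup.mul_mem _ (Subgroup.mul_mem _ (h1 _ (A.hP v))
    (Subgroup.zpow_mem _ (closure_cc v) _)) (h1 _ (A.hQ v))

theorem closure_L (v : V) : A.L v ∈ Subgroup.closure {y : Fr V | ∃ w, y = cc w} := by
  unfold Plumbing.L
  split_ifs
  · exact closure_mid A v
  · exact Subgroup.zpow_mem _ (closure_cc v) _

theorem closure_R (v : V) : A.R v ∈ Subgroup.closure {y : Fr V | ∃ w, y = cc w} := by
  unfold Plumbing.R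
  split_ifs
  · exact Subgroup.zpow_mem _ (closure_cc v) _
  · exact closure_mid A v

theorem gen_rel (v : V) : FreeGroup.lift (gen A) (A.rel v) = 1 := by
  unfold Plumbing.rel
  have ht : FreeGroup.lift (gen A) tt = SemidirectProduct.inr (Multiplicative.ofAdd 1) := by
    unfold tt
    rw [FreeGroup.lift_apply_of]
    rfl
  rw [map_mul, map_mul, map_mul, map_inv, map_inv, ht, gen_Kc A _ (closure_L A v),
    gen_Kc A _ (closure_R A v), ← map_inv SemidirectProduct.inl (ab (A.R v)),
    ← map_inv SemidirectProduct.inr, ← SemidirectProduct.inl_aut, map_inv,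
    act_R, ← map_mul, mul_inv_cancel, map_one]

theorem not_derived (v : V) : A.cl (cc v) ∉ ⁅A.K, A.K⁆ := by
  have hrel : ∀ r ∈ Set.range A.rel, FreeGroup.lift (gen A) r = 1 := by
    rintro r ⟨v, rfl⟩
    exact gen_rel A v
  have h2 : ∀ w, PresentedGroup.toGroup hrel (A.cl (cc w)) =
      SemidirectProduct.inl (Multiplicative.ofAdd (Pi.single w 1)) :=
    fun w => PresentedGroup.toGroup.of hrel
  intro hv
  have h1 := derived_two (PresentedGroup.toGroup hrel)
    (SemidirectProduct.rightHom (φ := act A)) ?_ A.K ?_ _ hv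
  · rw [h2, ← map_one SemidirectProduct.inl] at h1
    have h3 := SemidirectProduct.inl_injective h1
    have h4 : (Pi.single v 1 : V → ℚ) = 0 := Multiplicative.ofAdd.injective h3
    have h5 := congrFun h4 v
    rw [Pi.single_eq_same] at h5
    exact one_ne_zero h5
  · intro x y hx hy
    have hx' : x ∈ (SemidirectProduct.inl : _ →* Multiplicative (V → ℚ) ⋊[act A] _).range := by
      rw [SemidirectProduct.range_inl_eq_ker_rightHom]
      exact hx
    have hy' : y ∈ (SemidirectProduct.inl : _ →* Multiplicative (V → ℚ) ⋊[act A] _).range := by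
      rw [SemidirectProduct.range_inl_eq_ker_rightHom]
      exact hy
    obtain ⟨a, rfl⟩ := hx'
    obtain ⟨b, rfl⟩ := hy'
    rw [← map_mul, ← map_mul, mul_comm]
  · have hle : A.K ≤ ((SemidirectProduct.rightHom (φ := act A)).comp
        (PresentedGroup.toGroup hrel)).ker := by
      unfold Plumbing.K
      apply Subgroup.normalClosure_le_normal
      rintro x ⟨w, rfl⟩
      show (SemidirectProduct.rightHom (φ := act A)) (PresentedGroup.toGroup hrel (A.cl (cc w))) = 1
      rw [h2, SemidirectProduct.rightHom_inl]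
    intro x hx
    exact hle hx

end

end Pool.Agent.Lib.MP_31e124_gt.BP
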