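import Mathlib

/-!
# MP_31e124_gt, package BP: the top coefficient of a quotient, products over free involutions
-/

set_option autoImplicit false

namespace Pool.Agent.Lib.MP_31e124_gt.BP

open LaurentPolynomial

theorem coeff_lau (f : Polynomial ℂ) (n : ℕ) :
    (Polynomial.toLaurent f).coeff (n : ℤ) = f.coeff n := by
  rw [LaurentPolynomial.coeff_toLaurent]
  exact Finsupp.mapDomain_apply Nat.castEmbedding.injective _ n

theorem coeff_lau_neg (f : Polynomial ℂ) (k : ℤ) (hk : k < 0) :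
    (Polynomial.toLaurent f).coeff k = 0 := by
  rw [LaurentPolynomial.coeff_toLaurent]
  apply Finsupp.mapDomain_of_notMem_range
  rintro ⟨n, hn⟩
  have h1 : (n : ℤ) = k := hn
  omega

theorem coeff_mul_T (f : ℂ[T;T⁻¹]) (m e : ℤ) : (f * T m).coeff e = f.coeff (e - m) := by
  have h := AddMonoidAlgebra.coeff_mul_single_eq_coeff_mul (R := ℂ) (x := f) (m := m) (r := (1 : ℂ))
    (m₁ := e) (e - m) (fun m' _ => by constructor <;> intro h <;> omega)
  rw [mul_one] at h
  exact h

theorem top_coeff (τ : ℂ[T;T⁻¹]) (p q : Polynomial ℂ) (s : ℤ) (N : ℕ) (ha : p.coeff N ≠ 0)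
    (hN : p.natDegree ≤ N) (hq : q.Monic)
    (h : τ * Polynomial.toLaurent q = T s * Polynomial.toLaurent p) :
    ∃ d : ℤ, τ.coeff d = p.coeff N ∧ ∀ e, d < e → τ.coeff e = 0 := by
  obtain ⟨n, f, hf⟩ := exists_T_pow τ
  have hpN : p.natDegree = N := le_antisymm hN (Polynomial.le_natDegree_of_ne_zero ha)
  obtain ⟨k, hk⟩ : ∃ k : ℕ, 0 ≤ s + n + k := ⟨s.natAbs, by omega⟩
  obtain ⟨m, hm⟩ := Int.eq_ofNat_of_zero_le hk
  have h1 : Polynomial.toLaurent ((f * Polynomial.X ^ k) * q) =
      Polynomial.toLaurent (Polynomial.X ^ m * p) := by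
    rw [map_mul, map_mul, map_mul, Polynomial.toLaurent_X_pow, Polynomial.toLaurent_X_pow, hf,
      ← hm, T_add, T_add]
    calc τ * T n * T k * Polynomial.toLaurent q
        = (τ * Polynomial.toLaurent q) * (T n * T k) := by ring
      _ = T s * T n * T k * Polynomial.toLaurent p := by rw [h]; ring
  have h2 := Polynomial.toLaurent_injective h1
  have h3 := congrArg Polynomial.leadingCoeff h2
  rw [Polynomial.leadingCoeff_mul (f * Polynomial.X ^ k) q, hq.leadingCoeff, mul_one,
    Polynomial.leadingCoeff_mul (Polynomial.X ^ m) p, Polynomial.leadingCoeff_X_pow, one_mul] at h3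
  have h4 : p.leadingCoeff = p.coeff N := by
    rw [Polynomial.leadingCoeff, hpN]
  rw [h4] at h3
  have h5 : τ = Polynomial.toLaurent (f * Polynomial.X ^ k) * T (-(n + k : ℤ)) := by
    rw [map_mul, Polynomial.toLaurent_X_pow, hf, mul_assoc, mul_assoc, ← T_add, ← T_add]
    have : (n : ℤ) + (k + -(n + k : ℤ)) = 0 := by ring
    rw [this, T_zero, mul_one]
  refine ⟨((f * Polynomial.X ^ k).natDegree : ℤ) - (n + k), ?_, ?_⟩
  · rw [h5, coeff_mul_T]
    have : ((f * Polynomial.X ^ k).natDegree : ℤ) - (n + k) - -(n + k : ℤ) =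
        ((f * Polynomial.X ^ k).natDegree : ℤ) := by ring
    rw [this, coeff_lau]
    exact h3
  · intro e he
    rw [h5, coeff_mul_T]
    rcases lt_or_ge (e - -(n + k : ℤ)) 0 with h6 | h6
    · exact coeff_lau_neg _ _ h6
    · obtain ⟨j, hj⟩ := Int.eq_ofNat_of_zero_le h6
      rw [hj, coeff_lau]
      apply Polynomial.coeff_eq_zero_of_natDegree_lt
      omega

/-- A product over a free involution which conjugates the factors is positive. -/
theorem prod_pos {V : Type} [DecidableEq V] (σ : V → V) (F : V → ℂ) (h1 : ∀ v, σ (σ v) = v)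
    (h2 : ∀ v, σ v ≠ v) (h3 : ∀ v, F (σ v) = (starRingEnd ℂ) (F v)) (h4 : ∀ v, F v ≠ 0)
    (s : Finset V) (hs : ∀ v ∈ s, σ v ∈ s) : ∃ r : ℝ, 0 < r ∧ ∏ v ∈ s, F v = (r : ℂ) := by
  induction s using Finset.strongInduction with
  | H s ih =>
    rcases s.eq_empty_or_nonempty with rfl | ⟨v, hv⟩
    · exact ⟨1, one_pos, by simp⟩
    · have hσ : σ v ∈ s.erase v := Finset.mem_erase.2 ⟨h2 v, hs v hv⟩
      obtain ⟨r, hr, he⟩ := ih ((s.erase v).erase (σ v))
        ((Finset.erase_ssubset hσ).trans (Finset.erase_ssubset hv)) (by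
          intro w hw
          rw [Finset.mem_erase, Finset.mem_erase] at hw ⊢
          obtain ⟨w1, w2, w3⟩ := hw
          refine ⟨?_, ?_, hs w w3⟩
          · intro h
            exact w2 (by rw [← h1 w, h, h1 v])
          · intro h
            exact w1 (by rw [← h, h1]))
      refine ⟨Complex.normSq (F v) * r, mul_pos (Complex.normSq_pos.2 (h4 v)) hr, ?_⟩
      rw [← Finset.mul_prod_erase s F hv, ← Finset.mul_prod_erase (s.erase v) F hσ, he, h3,
        ← mul_assoc, Complex.mul_conj]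
      push_cast
      ring

end Pool.Agent.Lib.MP_31e124_gt.BP
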