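import Pool.Agent.Lib.MP_31e124_gt.BP.Fox
import Pool.Agent.Lib.MP_31e124_gt.BP.Met
import Pool.Agent.Lib.MP_31e124_gt.BP.Top

/-!
# MP_31e124_gt, package BP: the top coefficient of the torsion polynomial of a plumbing
-/

set_option autoImplicit false

namespace Pool.Agent.Lib.MP_31e124_gt.BP

open LaurentPolynomial
open scoped MatrixGroups

theorem C_inj {M N : Matrix (Fin 2) (Fin 2) ℂ}
    (h : M.map (C : ℂ →+* ℂ[T;T⁻¹]) = N.map (C : ℂ →+* ℂ[T;T⁻¹])) : M = N := by
  ext i j
  have h1 := congrArg (fun p : ℂ[T;T⁻¹] => p.coeff 0) (congrFun (congrFun h i) j)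
  simpa using h1

section

variable {V : Type} [Fintype V] [DecidableEq V] {A : Plumbing V} {α : A.G →* SL(2, ℂ)}

/-- The product of the local factors. -/
noncomputable def loc (α : A.G →* SL(2, ℂ)) (v : V) : ℂ :=
  (geo (aM A α (cc v)) (A.B v).natAbs).det

/-- The Fox matrix is `U' + T W'` with constant matrices of determinant `∏ loc v`. -/
theorem fox_split {D : Option V → Fr V → Matrix (Fin 2) (Fin 2) ℂ[T;T⁻¹]} (h : IsFox A α D) :
    ∃ U W : Matrix (V × Fin 2) (V × Fin 2) ℂ, U.det = ∏ v, loc α v ∧ W.det = ∏ v, loc α v ∧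
      (Matrix.of fun i j : V × Fin 2 => D (some j.1) (A.rel i.1) i.2 j.2) =
        (Polynomial.toLaurent : Polynomial ℂ →+* ℂ[T;T⁻¹]).mapMatrix
          ((Polynomial.X : Polynomial ℂ) • W.map Polynomial.C + U.map Polynomial.C) := by
  have hL : ∀ v w, ∃ N : Matrix (Fin 2) (Fin 2) ℂ, D (some w) (A.L v) = N.map C :=
    fun v w => fox_const h _ (L_Kc v) w
  have hR : ∀ v w, ∃ N : Matrix (Fin 2) (Fin 2) ℂ, D (some w) (A.R v) = N.map C :=
    fun v w => fox_const h _ (R_Kc v) w
  choose U hU using hL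
  choose W hW using hR
  have h0 : ∀ N : Matrix (Fin 2) (Fin 2) ℂ, N.map (C : ℂ →+* ℂ[T;T⁻¹]) = 0 → N = 0 := by
    intro N hN
    apply C_inj
    rw [hN, Matrix.map_zero]
    exact map_zero C
  refine ⟨Matrix.of fun i j => U i.1 j.1 i.2 j.2,
    Matrix.of fun i j => (-(aM A α tt * W i.1 j.1)) i.2 j.2, ?_, ?_, ?_⟩
  · rw [det_tri _ (fun v => if A.blk v then A.rk v + 1 else 0)]
    · refine Finset.prod_congr rfl (fun v _ => ?_)
      show (U v v).det = loc α v
      have h1 := hU v v
      unfold Plumbing.L at h1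
      split_ifs at h1 with hb
      · obtain ⟨N, hN, hd⟩ := (fox_mid h v).1
        rw [hN] at h1
        rw [← C_inj h1]
        exact hd
      · obtain ⟨N, hN, hd⟩ := fox_zpow h v (A.B v)
        rw [hN] at h1
        rw [← C_inj h1]
        exact hd
    · intro v w hvw hf i j
      have hz : U v w = 0 := by
        apply h0
        rw [← hU]
        unfold Plumbing.L
        split_ifs with hb
        · apply (fox_mid h v).2 w hvw
          rintro (h1 | h1)
          · apply hf
            have hw : A.blk w = false := by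
              rw [hb] at h1
              exact Bool.eq_false_iff.2 h1
            simp [hw, hb]
          · apply hf
            by_cases hw : A.blk w = true
            · simp only [hw, hb, if_true]; omega
            · simp [hw, hb]
        · exact fox_pure h v w hvw
      show U v w i j = 0
      rw [hz]
      rfl
  · rw [det_tri _ (fun v => if A.blk v then 0 else A.rk v + 1)]
    · refine Finset.prod_congr rfl (fun v _ => ?_)
      show (-(aM A α tt * W v v)).det = loc α v
      have h2 : (-(aM A α tt * W v v)).det = (W v v).det := by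
        rw [Matrix.det_neg, Matrix.det_mul, aM_det, one_mul, Fintype.card_fin]
        norm_num
      rw [h2]
      have h1 := hW v v
      unfold Plumbing.R at h1
      split_ifs at h1 with hb
      · obtain ⟨N, hN, hd⟩ := fox_zpow h v (A.B v)
        rw [hN] at h1
        rw [← C_inj h1]
        exact hd
      · obtain ⟨N, hN, hd⟩ := (fox_mid h v).1
        rw [hN] at h1
        rw [← C_inj h1]
        exact hd
    · intro v w hvw hf i j
      have hz : W v w = 0 := by
        apply h0
        rw [← hW]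
        unfold Plumbing.R
        split_ifs with hb
        · exact fox_pure h v w hvw
        · have hb' : A.blk v = false := Bool.eq_false_iff.2 hb
          apply (fox_mid h v).2 w hvw
          rintro (h1 | h1)
          · apply hf
            have hw : A.blk w = true := by
              rw [hb'] at h1
              exact Bool.eq_true_of_not_eq_false h1
            simp [hw, hb']
          · apply hf
            by_cases hw : A.blk w = true
            · simp [hw, hb']
            · have hw' : A.blk w = false := Bool.eq_false_iff.2 hw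
              simp only [hw', hb', Bool.false_eq_true, if_false]; omega
      show (-(aM A α tt * W v w)) i j = 0
      rw [hz, mul_zero, neg_zero]
      rfl
  · ext1 i j
    have hdt : deg (tt : Fr V) = Multiplicative.ofAdd 1 := by
      unfold deg tt
      rw [FreeGroup.lift_apply_of]
      rfl
    have h1 : D (some j.1) (A.rel i.1) = (U i.1 j.1).map C -
        (T 1 : ℂ[T;T⁻¹]) • (aM A α tt * W i.1 j.1).map C := by
      rw [fox_rel h, hU, hW, Phi_eq, hdt, toAdd_ofAdd, Matrix.smul_mul, Matrix.map_mul]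
    show D (some j.1) (A.rel i.1) i.2 j.2 = Polynomial.toLaurent
      (Polynomial.X * Polynomial.C ((-(aM A α tt * W i.1 j.1)) i.2 j.2) +
        Polynomial.C (U i.1 j.1 i.2 j.2))
    rw [h1, map_add, map_mul, Polynomial.toLaurent_X, Polynomial.toLaurent_C,
      Polynomial.toLaurent_C]
    show C (U i.1 j.1 i.2 j.2) - T 1 * C ((aM A α tt * W i.1 j.1) i.2 j.2) =
      T 1 * C (-((aM A α tt * W i.1 j.1) i.2 j.2)) + C (U i.1 j.1 i.2 j.2)
    rw [map_neg]
    ring

theorem det_t (h : (aM A α tt).trace = 2) : (Phi A α tt - 1).det =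
    Polynomial.toLaurent ((Polynomial.X - 1) ^ 2 : Polynomial ℂ) := by
  have hdt : deg (tt : Fr V) = Multiplicative.ofAdd 1 := by
    unfold deg tt
    rw [FreeGroup.lift_apply_of]
    rfl
  have hd := aM_det A α tt
  rw [Phi_eq, hdt, toAdd_ofAdd]
  rw [Matrix.det_fin_two] at hd ⊢
  rw [Matrix.trace_fin_two] at h
  obtain ⟨M, hM⟩ : ∃ M, M = aM A α tt := ⟨_, rfl⟩
  rw [← hM] at hd h ⊢
  have e1 : (C (M 0 0) * C (M 1 1) - C (M 0 1) * C (M 1 0) : ℂ[T;T⁻¹]) = 1 := by
    rw [← map_mul, ← map_mul, ← map_sub, hd, map_one]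
  have e2 : (C (M 0 0) + C (M 1 1) : ℂ[T;T⁻¹]) = 2 := by
    rw [← map_add, h, map_ofNat]
  show (T 1 * C (M 0 0) - 1) * (T 1 * C (M 1 1) - 1) -
    (T 1 * C (M 0 1) - 0) * (T 1 * C (M 1 0) - 0) = _
  rw [map_pow, map_sub, map_one, Polynomial.toLaurent_X]
  linear_combination (T 1 : ℂ[T;T⁻¹]) ^ 2 * e1 - (T 1 : ℂ[T;T⁻¹]) * e2

/-- The top coefficient is the product of the local factors. -/
theorem top_loc (ht : (aM A α tt).trace = 2) (hne : ∏ v, loc α v ≠ 0) (τ : ℂ[T;T⁻¹])
    (hτ : IsTorsion A α τ) :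
    ∃ d : ℤ, τ.coeff d = ∏ v, loc α v ∧ ∀ e, d < e → τ.coeff e = 0 := by
  obtain ⟨-, D, hD, s, hs⟩ := hτ
  obtain ⟨U, W, -, hW, hF⟩ := fox_split hD
  rw [hF, det_t ht, ← RingHom.map_det] at hs
  have hc := Polynomial.coeff_det_X_add_C_card W U
  have hdeg := Polynomial.natDegree_det_X_add_C_le W U
  have hq : ((Polynomial.X - 1) ^ 2 : Polynomial ℂ).Monic := by
    have : (Polynomial.X - 1 : Polynomial ℂ).Monic := by
      have := Polynomial.monic_X_sub_C (1 : ℂ)
      rwa [map_one] at this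
    exact this.pow 2
  obtain ⟨d, h1, h2⟩ := top_coeff τ _ _ s _ (by rw [hc, hW]; exact hne) hdeg hq hs
  rw [hc, hW] at h1
  exact ⟨d, h1, h2⟩

theorem cc_trace (v : V) (θ : A.G →* A.G) (σ : V → V) (mir : Mirror A α θ σ) :
    (aM A α (cc (σ v))).trace = (starRingEnd ℂ) (aM A α (cc v)).trace := by
  have hconj : ∀ x y : A.G, IsConj x y → ((α x : SL(2, ℂ)) : Matrix (Fin 2) (Fin 2) ℂ).trace =
      ((α y : SL(2, ℂ)) : Matrix (Fin 2) (Fin 2) ℂ).trace := by
    intro x y hxy
    obtain ⟨c, hc⟩ := isConj_iff.1 hxy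
    rw [← hc, map_mul, map_mul, map_inv, Matrix.SpecialLinearGroup.coe_mul,
      Matrix.SpecialLinearGroup.coe_mul, Matrix.trace_mul_comm, ← Matrix.mul_assoc,
      ← Matrix.SpecialLinearGroup.coe_mul, inv_mul_cancel, Matrix.SpecialLinearGroup.coe_one,
      Matrix.one_mul]
  have hinv : ∀ X : SL(2, ℂ), ((X⁻¹ : SL(2, ℂ)) : Matrix (Fin 2) (Fin 2) ℂ).trace =
      (X : Matrix (Fin 2) (Fin 2) ℂ).trace := by
    intro X
    rw [Matrix.SpecialLinearGroup.coe_inv, Matrix.adjugate_fin_two, Matrix.trace_fin_two,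
      Matrix.trace_fin_two]
    simp
    ring
  have h1 : ((α (θ (A.cl (cc v))) : SL(2, ℂ)) : Matrix (Fin 2) (Fin 2) ℂ).trace =
      (starRingEnd ℂ) ((α (A.cl (cc v)) : SL(2, ℂ)) : Matrix (Fin 2) (Fin 2) ℂ).trace :=
    mir.tr (A.cl (cc v))
  rcases mir.cls v with h2 | h2
  · rw [hconj _ _ h2] at h1
    exact h1
  · rw [hconj _ _ h2, map_inv, hinv] at h1
    exact h1

theorem loc_conj (θ : A.G →* A.G) (σ : V → V) (mir : Mirror A α θ σ) (v : V) :
    loc α (σ v) = (starRingEnd ℂ) (loc α v) := by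
  unfold loc
  have h1 : (A.B (σ v)).natAbs = (A.B v).natAbs :=
    Int.natAbs_eq_natAbs_iff.2 (abs_eq_abs.1 (mir.B v))
  rw [h1]
  exact geo_conj _ _ (aM_det A α _) (aM_det A α _) (cc_trace v θ σ mir) _

theorem loc_ne (hol : Holonomy A α) (v : V) : loc α v ≠ 0 := by
  intro h0
  obtain ⟨h1, h2⟩ := geo_zero (aM A α (cc v)) (aM_det A α _) (A.B v).natAbs
    (Int.natAbs_ne_zero.2 (A.hB v)) h0
  rcases h2 with h2 | h2
  · exact not_derived A v (hol.par2 _ (Subgroup.subset_normalClosure ⟨v, rfl⟩) h2)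
  · apply hol.tf (A.cl (cc v)) _ (A.B v).natAbs (Int.natAbs_ne_zero.2 (A.hB v))
    · apply hol.inj
      rw [map_pow, map_one]
      apply Subtype.ext
      rw [Matrix.SpecialLinearGroup.coe_pow, Matrix.SpecialLinearGroup.coe_one]
      exact h2
    · intro h3
      apply h1
      unfold aM
      rw [h3, map_one, Matrix.SpecialLinearGroup.coe_one, Matrix.trace_one]
      simp

theorem main (A : Plumbing V) (α : A.G →* SL(2, ℂ)) (hol : Holonomy A α) (θ : A.G →* A.G)
    (σ : V → V) (mir : Mirror A α θ σ) (τ : ℂ[T;T⁻¹]) (hτ : IsTorsion A α τ) : PosTop τ := by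
  obtain ⟨r, hr, hp⟩ := prod_pos σ (fun v => loc α v) mir.invol mir.free
    (fun v => loc_conj θ σ mir v) (fun v => loc_ne hol v) Finset.univ
    (fun v _ => Finset.mem_univ _)
  obtain ⟨d, h1, h2⟩ := top_loc (A := A) (α := α) hol.par
    (Finset.prod_ne_zero_iff.2 fun v _ => loc_ne hol v) τ hτ
  exact ⟨d, r, hr, h1.trans hp, h2⟩

end

end Pool.Agent.Lib.MP_31e124_gt.BP
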