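import Pool.Agent.Lib.MP_31e124_gt.BP.Defs

/-!
# MP_31e124_gt, package BP: two-bridge knots and their mirror symmetry

The two-bridge knot with `p / q = 2 b_1 + 1 / (2 b_2 + 1 / (… + 1 / (2 b_(2g))))` bounds a plumbing of `2 g`
bands. If `b` is palindromic the knot is amphichiral, and `mirror` is the endomorphism of its group
given by the orientation reversing symmetry.
-/

set_option autoImplicit false

namespace Pool.Agent.Lib.MP_31e124_gt.BP

open scoped MatrixGroups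

theorem cl_mul {V : Type} (A : Plumbing V) (x y : Fr V) : A.cl (x * y) = A.cl x * A.cl y :=
  map_mul (PresentedGroup.mk _) x y

theorem cl_inv {V : Type} (A : Plumbing V) (x : Fr V) : A.cl x⁻¹ = (A.cl x)⁻¹ :=
  map_inv (PresentedGroup.mk _) x

theorem cl_zpow {V : Type} (A : Plumbing V) (x : Fr V) (n : ℤ) : A.cl (x ^ n) = A.cl x ^ n :=
  map_zpow (PresentedGroup.mk _) x n

theorem cl_one {V : Type} (A : Plumbing V) : A.cl 1 = 1 := map_one (PresentedGroup.mk _)

theorem rel_def {V : Type} (A : Plumbing V) (v : V) :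
    A.rel v = A.L v * (tt * (A.R v)⁻¹ * tt⁻¹) := rfl

theorem rel_of {G : Type} [Group G] (x t y : G) (h : x * (t * y⁻¹ * t⁻¹) = 1) :
    x = t * y * t⁻¹ := by
  rw [mul_eq_one_iff_eq_inv.1 h]
  group

theorem grp_odd {G : Type} [Group G] (t z y e d f : G) (n m : ℤ) (hz : z = d ^ m * y)
    (hr : e ^ n = t * (d⁻¹ * e ^ n * f) * t⁻¹) (tz : t * z * t⁻¹ = e * z) :
    y⁻¹ * d⁻¹ * y * (z⁻¹ * e * z) ^ n * (z⁻¹ * f⁻¹ * z)⁻¹ *
      (t⁻¹ * ((z⁻¹ * e * z) ^ n)⁻¹ * t⁻¹⁻¹) = 1 := by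
  have hpow : (z⁻¹ * e * z) ^ n = z⁻¹ * e ^ n * z := by
    have := conj_zpow (a := z⁻¹) (b := e) (i := n)
    rwa [inv_inv] at this
  have hy : y = d ^ (-m) * z := by
    rw [hz]
    group
  have h0 : y⁻¹ * d⁻¹ * y = z⁻¹ * d⁻¹ * z := by
    rw [hy]
    group
  have h1 : d⁻¹ * e ^ n * f = t⁻¹ * e ^ n * t := by
    have h2 : t⁻¹ * e ^ n * t = t⁻¹ * (t * (d⁻¹ * e ^ n * f) * t⁻¹) * t := by rw [← hr]
    rw [h2]
    group
  rw [hpow, h0]
  calc z⁻¹ * d⁻¹ * z * (z⁻¹ * e ^ n * z) * (z⁻¹ * f⁻¹ * z)⁻¹ * (t⁻¹ * (z⁻¹ * e ^ n * z)⁻¹ * t⁻¹⁻¹)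
      = z⁻¹ * (d⁻¹ * e ^ n * f) * z * (t⁻¹ * (z⁻¹ * (e ^ n)⁻¹ * z) * t) := by group
    _ = z⁻¹ * (t⁻¹ * e ^ n * t) * z * (t⁻¹ * (z⁻¹ * (e ^ n)⁻¹ * z) * t) := by rw [h1]
    _ = z⁻¹ * t⁻¹ * e ^ n * (t * z * t⁻¹) * z⁻¹ * (e ^ n)⁻¹ * z * t := by group
    _ = z⁻¹ * t⁻¹ * e ^ n * (e * z) * z⁻¹ * (e ^ n)⁻¹ * z * t := by rw [tz]
    _ = z⁻¹ * t⁻¹ * (e * z) * t := by group
    _ = z⁻¹ * t⁻¹ * (t * z * t⁻¹) * t := by rw [tz]
    _ = 1 := by group

theorem grp_even {G : Type} [Group G] (t z e d f : G) (n : ℤ)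
    (hr : f * e ^ n * d⁻¹ = t * e ^ n * t⁻¹) (tz : t * z * t⁻¹ = d * z) :
    (z⁻¹ * e⁻¹ * z) ^ n * (t⁻¹ * (((e ^ n * z)⁻¹ * f * (e ^ n * z))⁻¹ * (z⁻¹ * e⁻¹ * z) ^ n *
      (z⁻¹ * d * z))⁻¹ * t⁻¹⁻¹) = 1 := by
  have hpow : (z⁻¹ * e⁻¹ * z) ^ n = z⁻¹ * (e ^ n)⁻¹ * z := by
    have := conj_zpow (a := z⁻¹) (b := e⁻¹) (i := n)
    rwa [inv_inv, inv_zpow] at this
  have h1 : f * e ^ n = t * e ^ n * t⁻¹ * d := by
    rw [← hr]
    group
  rw [hpow]
  calc z⁻¹ * (e ^ n)⁻¹ * z * (t⁻¹ * (((e ^ n * z)⁻¹ * f * (e ^ n * z))⁻¹ *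
        (z⁻¹ * (e ^ n)⁻¹ * z) * (z⁻¹ * d * z))⁻¹ * t⁻¹⁻¹)
      = z⁻¹ * (e ^ n)⁻¹ * z * (t⁻¹ * (z⁻¹ * d⁻¹ * (f * e ^ n) * z) * t) := by group
    _ = z⁻¹ * (e ^ n)⁻¹ * z * (t⁻¹ * (z⁻¹ * d⁻¹ * (t * e ^ n * t⁻¹ * d) * z) * t) := by rw [h1]
    _ = z⁻¹ * (e ^ n)⁻¹ * z * t⁻¹ * (d * z)⁻¹ * t * e ^ n * t⁻¹ * (d * z) * t := by group
    _ = z⁻¹ * (e ^ n)⁻¹ * z * t⁻¹ * (t * z * t⁻¹)⁻¹ * t * e ^ n * t⁻¹ * (t * z * t⁻¹) * t := by
        rw [tz]
    _ = 1 := by group

/-- `c_k` for `1 ≤ k ≤ 2 g`, and `1` for the other `k`. -/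
def ee (g k : ℕ) : Fr (Fin (2 * g)) :=
  if h : 1 ≤ k ∧ k ≤ 2 * g then cc ⟨k - 1, by omega⟩ else 1

theorem ee_mem (g k : ℕ) (p : Fin (2 * g) → Prop)
    (hp : ∀ h : 1 ≤ k ∧ k ≤ 2 * g, p ⟨k - 1, by omega⟩) :
    ee g k ∈ Subgroup.closure {x | ∃ w, p w ∧ x = cc w} := by
  unfold ee
  split_ifs with h
  · exact Subgroup.subset_closure
      (show _ ∈ {x : Fr (Fin (2 * g)) | ∃ w, p w ∧ x = cc w} from ⟨_, hp h, rfl⟩)
  · exact Subgroup.one_mem _

/-- The plumbing of the two-bridge knot: `c_(k+1) c_k ^ b_k c_(k-1)⁻¹ = t c_k ^ b_k t⁻¹` for `k` odd and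
`c_k ^ b_k = t c_(k-1)⁻¹ c_k ^ b_k c_(k+1) t⁻¹` for `k` even (`k = j + 1`). -/
def twoBridge (g : ℕ) (b : ℕ → ℤ) (hb : ∀ k, b k ≠ 0) : Plumbing (Fin (2 * g)) where
  blk j := decide ((j : ℕ) % 2 = 0)
  rk _ := 0
  B j := b (j + 1)
  P j := if (j : ℕ) % 2 = 0 then ee g (j + 2) else (ee g j)⁻¹
  Q j := if (j : ℕ) % 2 = 0 then (ee g j)⁻¹ else ee g (j + 2)
  hB j := hb _
  hP j := by
    have h1 : ee g (j + 2) ∈ Subgroup.closure {x | ∃ w : Fin (2 * g),
        (decide ((w : ℕ) % 2 = 0) ≠ decide ((j : ℕ) % 2 = 0) ∨ (0 : ℕ) < 0) ∧ x = cc w} := by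
      apply ee_mem g (j + 2)
      intro h
      left
      simp only [ne_eq, decide_eq_decide]
      omega
    have h2 : ee g j ∈ Subgroup.closure {x | ∃ w : Fin (2 * g),
        (decide ((w : ℕ) % 2 = 0) ≠ decide ((j : ℕ) % 2 = 0) ∨ (0 : ℕ) < 0) ∧ x = cc w} := by
      apply ee_mem g j
      intro h
      left
      simp only [ne_eq, decide_eq_decide]
      omega
    split_ifs
    · exact h1
    · exact Subgroup.inv_mem _ h2
  hQ j := by
    have h1 : ee g (j + 2) ∈ Subgroup.closure {x | ∃ w : Fin (2 * g),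
        (decide ((w : ℕ) % 2 = 0) ≠ decide ((j : ℕ) % 2 = 0) ∨ (0 : ℕ) < 0) ∧ x = cc w} := by
      apply ee_mem g (j + 2)
      intro h
      left
      simp only [ne_eq, decide_eq_decide]
      omega
    have h2 : ee g j ∈ Subgroup.closure {x | ∃ w : Fin (2 * g),
        (decide ((w : ℕ) % 2 = 0) ≠ decide ((j : ℕ) % 2 = 0) ∨ (0 : ℕ) < 0) ∧ x = cc w} := by
      apply ee_mem g j
      intro h
      left
      simp only [ne_eq, decide_eq_decide]
      omega
    split_ifs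
    · exact Subgroup.inv_mem _ h2
    · exact h1

/-- The product of the `c_l ^ b_l`, `l < k` odd, in decreasing order. -/
def zz (g : ℕ) (b : ℕ → ℤ) : ℕ → Fr (Fin (2 * g))
  | 0 => 1
  | k + 1 => if k % 2 = 1 then ee g k ^ b k * zz g b k else zz g b k

/-- The image of `c_J` under the mirror symmetry: a conjugate of `c_K` (`J` odd) or `c_K⁻¹` (`J` even),
`K = 2 g + 1 - J`. -/
def mw (g : ℕ) (b : ℕ → ℤ) (J : ℕ) : Fr (Fin (2 * g)) :=
  (zz g b (2 * g + 1 - J))⁻¹ *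
    (if J % 2 = 1 then ee g (2 * g + 1 - J) else (ee g (2 * g + 1 - J))⁻¹) *
    zz g b (2 * g + 1 - J)

section

variable (g : ℕ) (b : ℕ → ℤ) (hb : ∀ k, b k ≠ 0)

/-- The images of the generators under the mirror symmetry. -/
def mg (x : Option (Fin (2 * g))) : (twoBridge g b hb).G :=
  x.elim ((twoBridge g b hb).cl tt)⁻¹ fun j => (twoBridge g b hb).cl (mw g b (j + 1))

theorem tb_rel (k : ℕ) (h1 : 1 ≤ k) (h2 : k ≤ 2 * g) :
    (k % 2 = 1 → (twoBridge g b hb).cl (ee g (k + 1)) * (twoBridge g b hb).cl (ee g k) ^ b k *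
      ((twoBridge g b hb).cl (ee g (k - 1)))⁻¹ =
      (twoBridge g b hb).cl tt * (twoBridge g b hb).cl (ee g k) ^ b k *
        ((twoBridge g b hb).cl tt)⁻¹) ∧
    (k % 2 = 0 → (twoBridge g b hb).cl (ee g k) ^ b k =
      (twoBridge g b hb).cl tt * (((twoBridge g b hb).cl (ee g (k - 1)))⁻¹ *
        (twoBridge g b hb).cl (ee g k) ^ b k * (twoBridge g b hb).cl (ee g (k + 1))) *
        ((twoBridge g b hb).cl tt)⁻¹) := by
  have hr : (twoBridge g b hb).cl ((twoBridge g b hb).rel ⟨k - 1, by omega⟩) = 1 :=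
    PresentedGroup.one_of_mem (Set.mem_range_self _)
  have hk : ee g k = cc ⟨k - 1, by omega⟩ := by
    unfold ee
    rw [dif_pos ⟨h1, h2⟩]
  have e1 : k - 1 + 1 = k := by omega
  have e2 : k - 1 + 2 = k + 1 := by omega
  constructor
  · intro hpar
    have hp : (k - 1) % 2 = 0 := by omega
    have hL : (twoBridge g b hb).L ⟨k - 1, by omega⟩ =
        ee g (k + 1) * ee g k ^ b k * (ee g (k - 1))⁻¹ := by
      unfold Plumbing.L
      show (if decide ((k - 1) % 2 = 0) = true then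
        (if (k - 1) % 2 = 0 then ee g (k - 1 + 2) else (ee g (k - 1))⁻¹) *
          cc ⟨k - 1, by omega⟩ ^ b (k - 1 + 1) *
          (if (k - 1) % 2 = 0 then (ee g (k - 1))⁻¹ else ee g (k - 1 + 2))
        else cc ⟨k - 1, by omega⟩ ^ b (k - 1 + 1)) = _
      rw [if_pos (by simp [hp]), if_pos hp, if_pos hp, e1, e2, hk]
    have hR : (twoBridge g b hb).R ⟨k - 1, by omega⟩ = ee g k ^ b k := by
      unfold Plumbing.R
      show (if decide ((k - 1) % 2 = 0) = true then cc ⟨k - 1, by omega⟩ ^ b (k - 1 + 1) else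
        (if (k - 1) % 2 = 0 then ee g (k - 1 + 2) else (ee g (k - 1))⁻¹) *
          cc ⟨k - 1, by omega⟩ ^ b (k - 1 + 1) *
          (if (k - 1) % 2 = 0 then (ee g (k - 1))⁻¹ else ee g (k - 1 + 2))) = _
      rw [if_pos (by simp [hp]), e1, hk]
    unfold Plumbing.rel at hr
    rw [hL, hR] at hr
    simp only [map_mul, map_inv, map_zpow] at hr
    exact rel_of _ _ _ hr
  · intro hpar
    have hp : ¬ (k - 1) % 2 = 0 := by omega
    have hL : (twoBridge g b hb).L ⟨k - 1, by omega⟩ = ee g k ^ b k := by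
      unfold Plumbing.L
      show (if decide ((k - 1) % 2 = 0) = true then
        (if (k - 1) % 2 = 0 then ee g (k - 1 + 2) else (ee g (k - 1))⁻¹) *
          cc ⟨k - 1, by omega⟩ ^ b (k - 1 + 1) *
          (if (k - 1) % 2 = 0 then (ee g (k - 1))⁻¹ else ee g (k - 1 + 2))
        else cc ⟨k - 1, by omega⟩ ^ b (k - 1 + 1)) = _
      rw [if_neg (by simp [hp]), e1, hk]
    have hR : (twoBridge g b hb).R ⟨k - 1, by omega⟩ =
        (ee g (k - 1))⁻¹ * ee g k ^ b k * ee g (k + 1) := by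
      unfold Plumbing.R
      show (if decide ((k - 1) % 2 = 0) = true then cc ⟨k - 1, by omega⟩ ^ b (k - 1 + 1) else
        (if (k - 1) % 2 = 0 then ee g (k - 1 + 2) else (ee g (k - 1))⁻¹) *
          cc ⟨k - 1, by omega⟩ ^ b (k - 1 + 1) *
          (if (k - 1) % 2 = 0 then (ee g (k - 1))⁻¹ else ee g (k - 1 + 2))) = _
      rw [if_neg (by simp [hp]), if_neg hp, if_neg hp, e1, e2, hk]
    unfold Plumbing.rel at hr
    rw [hL, hR] at hr
    simp only [map_mul, map_inv, map_zpow] at hr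
    exact rel_of _ _ _ hr

/-- `t z_k t⁻¹`. -/
theorem tb_z (k : ℕ) (hk : k ≤ 2 * g + 1) :
    (twoBridge g b hb).cl tt * (twoBridge g b hb).cl (zz g b k) * ((twoBridge g b hb).cl tt)⁻¹ =
      (if k % 2 = 0 then (twoBridge g b hb).cl (ee g k) else
        (twoBridge g b hb).cl (ee g (k - 1))) * (twoBridge g b hb).cl (zz g b k) := by
  induction k with
  | zero =>
    have h0 : ee g 0 = 1 := by
      unfold ee
      rw [dif_neg (by omega)]
    rw [if_pos rfl, h0]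
    simp only [zz, map_one, mul_one, mul_inv_cancel]
  | succ k ih =>
    have ih' := ih (by omega)
    by_cases hp : k % 2 = 1
    · have hz : zz g b (k + 1) = ee g k ^ b k * zz g b k := by
        show (if k % 2 = 1 then ee g k ^ b k * zz g b k else zz g b k) = _
        rw [if_pos hp]
      rw [if_neg (by omega)] at ih'
      rw [if_pos (by omega), hz, cl_mul, cl_zpow]
      have hrel := (tb_rel g b hb k (by omega) (by omega)).1 hp
      generalize (twoBridge g b hb).cl tt = t at *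
      generalize (twoBridge g b hb).cl (zz g b k) = z at *
      generalize (twoBridge g b hb).cl (ee g k) = e at *
      generalize (twoBridge g b hb).cl (ee g (k + 1)) = f at *
      generalize (twoBridge g b hb).cl (ee g (k - 1)) = d at *
      calc t * (e ^ b k * z) * t⁻¹ = (t * e ^ b k * t⁻¹) * (t * z * t⁻¹) := by group
        _ = (f * e ^ b k * d⁻¹) * (d * z) := by rw [hrel, ih']
        _ = f * (e ^ b k * z) := by group
    · have hz : zz g b (k + 1) = zz g b k := by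
        show (if k % 2 = 1 then ee g k ^ b k * zz g b k else zz g b k) = _
        rw [if_neg hp]
      rw [if_pos (by omega)] at ih'
      rw [if_neg (by omega), hz, Nat.add_sub_cancel]
      exact ih'

theorem mg_ee (J : ℕ) (hJ : J ≤ 2 * g + 1) :
    FreeGroup.lift (mg g b hb) (ee g J) = (twoBridge g b hb).cl (mw g b J) := by
  unfold ee
  split_ifs with h
  · unfold cc
    rw [FreeGroup.lift_apply_of]
    show (twoBridge g b hb).cl (mw g b (J - 1 + 1)) = _
    rw [Nat.sub_add_cancel h.1]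
  · rw [map_one]
    have h1 : mw g b J = 1 := by
      unfold mw
      have h2 : ee g (2 * g + 1 - J) = 1 := by
        unfold ee
        rw [dif_neg (by omega)]
      rw [h2]
      split_ifs <;> group
    rw [h1, cl_one]

/-- Under a palindromic `b` the images of the generators satisfy the relations. -/
theorem mg_rel (hp : ∀ k, 1 ≤ k → k ≤ 2 * g → b (2 * g + 1 - k) = b k) (j : Fin (2 * g)) :
    FreeGroup.lift (mg g b hb) ((twoBridge g b hb).rel j) = 1 := by
  obtain ⟨k, hk⟩ : ∃ k, k = (j : ℕ) + 1 := ⟨_, rfl⟩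
  have hj := j.2
  obtain ⟨K, hK⟩ : ∃ K, K = 2 * g + 1 - k := ⟨_, rfl⟩
  have hbK : b K = b k := by rw [hK]; exact hp k (by omega) (by omega)
  have hjj : j = ⟨k - 1, by omega⟩ := Fin.ext (by show (j : ℕ) = k - 1; omega)
  have htt : FreeGroup.lift (mg g b hb) tt = ((twoBridge g b hb).cl tt)⁻¹ := by
    unfold tt
    rw [FreeGroup.lift_apply_of]
    rfl
  have hcc : cc j = ee g k := by
    unfold ee
    rw [dif_pos (by omega)]
    exact congrArg cc hjj
  have e0 : mw g b k = (zz g b K)⁻¹ * (if k % 2 = 1 then ee g K else (ee g K)⁻¹) * zz g b K := by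
    unfold mw
    rw [hK]
  have ep : mw g b (k + 1) = (zz g b (K - 1))⁻¹ *
      (if k % 2 = 1 then (ee g (K - 1))⁻¹ else ee g (K - 1)) * zz g b (K - 1) := by
    unfold mw
    have h1 : 2 * g + 1 - (k + 1) = K - 1 := by omega
    rw [h1]
    by_cases h2 : k % 2 = 1
    · rw [if_pos h2, if_neg (by omega)]
    · rw [if_neg h2, if_pos (by omega)]
  have em : mw g b (k - 1) = (zz g b (K + 1))⁻¹ *
      (if k % 2 = 1 then (ee g (K + 1))⁻¹ else ee g (K + 1)) * zz g b (K + 1) := by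
    unfold mw
    have h1 : 2 * g + 1 - (k - 1) = K + 1 := by omega
    rw [h1]
    by_cases h2 : k % 2 = 1
    · rw [if_pos h2, if_neg (by omega)]
    · rw [if_neg h2, if_pos (by omega)]
  have e1 : (j : ℕ) + 2 = k + 1 := by omega
  have e2 : (j : ℕ) = k - 1 := by omega
  have tz := tb_z g b hb K (by omega)
  have hrel := tb_rel g b hb K (by omega) (by omega)
  have g0 := mg_ee g b hb k (by omega)
  have gp := mg_ee g b hb (k + 1) (by omega)
  have gm := mg_ee g b hb (k - 1) (by omega)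
  by_cases hpar : k % 2 = 1
  · -- `k` odd, `K` even
    have hpj : (j : ℕ) % 2 = 0 := by omega
    have hL : (twoBridge g b hb).L j = ee g (k + 1) * ee g k ^ b k * (ee g (k - 1))⁻¹ := by
      unfold Plumbing.L
      show (if decide ((j : ℕ) % 2 = 0) = true then
        (if (j : ℕ) % 2 = 0 then ee g ((j : ℕ) + 2) else (ee g (j : ℕ))⁻¹) * cc j ^ b ((j : ℕ) + 1) *
          (if (j : ℕ) % 2 = 0 then (ee g (j : ℕ))⁻¹ else ee g ((j : ℕ) + 2))
        else cc j ^ b ((j : ℕ) + 1)) = _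
      rw [if_pos (by simp [hpj]), if_pos hpj, if_pos hpj, e1, hcc, ← hk, ← e2]
    have hR : (twoBridge g b hb).R j = ee g k ^ b k := by
      unfold Plumbing.R
      show (if decide ((j : ℕ) % 2 = 0) = true then cc j ^ b ((j : ℕ) + 1) else _) = _
      rw [if_pos (by simp [hpj]), hcc, ← hk]
    have hzK : zz g b K = ee g (K - 1) ^ b (K - 1) * zz g b (K - 1) := by
      obtain ⟨M, hM⟩ : ∃ M, K = M + 1 := ⟨K - 1, by omega⟩
      rw [hM, Nat.add_sub_cancel]
      show (if M % 2 = 1 then ee g M ^ b M * zz g b M else zz g b M) = _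
      rw [if_pos (by omega)]
    have hzK1 : zz g b (K + 1) = zz g b K := by
      show (if K % 2 = 1 then ee g K ^ b K * zz g b K else zz g b K) = _
      rw [if_neg (by omega)]
    rw [rel_def, hL, hR, map_mul, map_mul, map_mul, map_mul, map_mul, map_inv, map_inv, map_inv,
      map_zpow, htt, g0, gp, gm, e0, ep, em, if_pos hpar, if_pos hpar, if_pos hpar, hzK1]
    simp only [cl_mul, cl_inv]
    rw [if_pos (by omega)] at tz
    have hr := hrel.2 (by omega)
    have hz := congrArg (twoBridge g b hb).cl hzK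
    rw [cl_mul, cl_zpow] at hz
    rw [hbK] at hr
    generalize (twoBridge g b hb).cl tt = t at *
    generalize (twoBridge g b hb).cl (zz g b K) = z at *
    generalize (twoBridge g b hb).cl (zz g b (K - 1)) = y at *
    generalize (twoBridge g b hb).cl (ee g K) = e at *
    generalize (twoBridge g b hb).cl (ee g (K - 1)) = d at *
    generalize (twoBridge g b hb).cl (ee g (K + 1)) = f at *
    exact grp_odd t z y e d f (b k) (b (K - 1)) hz hr tz
  · -- `k` even, `K` odd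
    have hpj : ¬ (j : ℕ) % 2 = 0 := by omega
    have hL : (twoBridge g b hb).L j = ee g k ^ b k := by
      unfold Plumbing.L
      show (if decide ((j : ℕ) % 2 = 0) = true then _ else cc j ^ b ((j : ℕ) + 1)) = _
      rw [if_neg (by simp [hpj]), hcc, ← hk]
    have hR : (twoBridge g b hb).R j = (ee g (k - 1))⁻¹ * ee g k ^ b k * ee g (k + 1) := by
      unfold Plumbing.R
      show (if decide ((j : ℕ) % 2 = 0) = true then cc j ^ b ((j : ℕ) + 1) else
        (if (j : ℕ) % 2 = 0 then ee g ((j : ℕ) + 2) else (ee g (j : ℕ))⁻¹) * cc j ^ b ((j : ℕ) + 1) *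
          (if (j : ℕ) % 2 = 0 then (ee g (j : ℕ))⁻¹ else ee g ((j : ℕ) + 2))) = _
      rw [if_neg (by simp [hpj]), if_neg hpj, if_neg hpj, e1, hcc, ← hk, ← e2]
    have hzK : zz g b (K - 1) = zz g b K := by
      obtain ⟨M, hM⟩ : ∃ M, K = M + 1 := ⟨K - 1, by omega⟩
      rw [hM, Nat.add_sub_cancel]
      show _ = (if M % 2 = 1 then ee g M ^ b M * zz g b M else zz g b M)
      rw [if_neg (by omega)]
    have hzK1 : zz g b (K + 1) = ee g K ^ b K * zz g b K := by
      show (if K % 2 = 1 then ee g K ^ b K * zz g b K else zz g b K) = _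
      rw [if_pos (by omega)]
    rw [rel_def, hL, hR, map_mul, map_mul, map_mul, map_inv, map_inv, map_mul, map_mul, map_inv,
      map_zpow, htt, g0, gp, gm, e0, ep, em, if_neg hpar, if_neg hpar, if_neg hpar, hzK, hzK1]
    simp only [cl_mul, cl_inv, cl_zpow]
    rw [if_neg (by omega)] at tz
    have hr := hrel.1 (by omega)
    rw [hbK] at hr ⊢
    generalize (twoBridge g b hb).cl tt = t at *
    generalize (twoBridge g b hb).cl (zz g b K) = z at *
    generalize (twoBridge g b hb).cl (ee g K) = e at *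
    generalize (twoBridge g b hb).cl (ee g (K - 1)) = d at *
    generalize (twoBridge g b hb).cl (ee g (K + 1)) = f at *
    exact grp_even t z e d f (b k) hr tz

/-- The mirror symmetry. -/
def mirror (hp : ∀ k, 1 ≤ k → k ≤ 2 * g → b (2 * g + 1 - k) = b k) :
    (twoBridge g b hb).G →* (twoBridge g b hb).G :=
  PresentedGroup.toGroup (f := mg g b hb) (by
    rintro r ⟨j, rfl⟩
    exact mg_rel g b hb hp j)

theorem mirror_cls (hp : ∀ k, 1 ≤ k → k ≤ 2 * g → b (2 * g + 1 - k) = b k) (j : Fin (2 * g)) :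
    IsConj (mirror g b hb hp ((twoBridge g b hb).cl (cc j))) ((twoBridge g b hb).cl (cc j.rev)) ∨
    IsConj (mirror g b hb hp ((twoBridge g b hb).cl (cc j)))
      ((twoBridge g b hb).cl (cc j.rev))⁻¹ := by
  have h1 : mirror g b hb hp ((twoBridge g b hb).cl (cc j)) =
      (twoBridge g b hb).cl (mw g b ((j : ℕ) + 1)) := PresentedGroup.toGroup.of _
  have hj := j.2
  have h2 : ee g (2 * g + 1 - ((j : ℕ) + 1)) = cc j.rev := by
    unfold ee
    rw [dif_pos (by omega)]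
    apply congrArg cc
    apply Fin.ext
    rw [Fin.val_rev]
    show 2 * g + 1 - ((j : ℕ) + 1) - 1 = 2 * g - ((j : ℕ) + 1)
    omega
  rw [h1]
  unfold mw
  rw [h2]
  by_cases hpar : ((j : ℕ) + 1) % 2 = 1
  · left
    rw [if_pos hpar, cl_mul, cl_mul, cl_inv]
    rw [isConj_iff]
    exact ⟨(twoBridge g b hb).cl (zz g b (2 * g + 1 - ((j : ℕ) + 1))), by group⟩
  · right
    rw [if_neg hpar, cl_mul, cl_mul, cl_inv, cl_inv]
    rw [isConj_iff]
    exact ⟨(twoBridge g b hb).cl (zz g b (2 * g + 1 - ((j : ℕ) + 1))), by group⟩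

end

end Pool.Agent.Lib.MP_31e124_gt.BP
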